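import Pool.Agent.Helper30.SY.St

/-!
# Project SY, module RT: random types
-/

set_option autoImplicit false

namespace Pool.Agent.Helper69.SY

open Finset Pool.Agent.Helper30.SY Pool.Agent.Helper93.IA

private lemma Ex_sum {ι : Type} [Fintype ι] [DecidableEq ι] {κ : ι → Type} [∀ i, Fintype (κ i)]
    (w : ∀ i, κ i → ℝ) {γ : Type} (S : Finset γ) (h : γ → (∀ i, κ i) → ℝ) :
    Ex w (fun σ => ∑ c ∈ S, h c σ) = ∑ c ∈ S, Ex w (h c) := by
  unfold Ex
  simp_rw [Finset.mul_sum]
  rw [Finset.sum_comm]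

private lemma Ex_mul {ι : Type} [Fintype ι] [DecidableEq ι] {κ : ι → Type} [∀ i, Fintype (κ i)]
    (w : ∀ i, κ i → ℝ) (a : ℝ) (h : (∀ i, κ i) → ℝ) :
    Ex w (fun σ => a * h σ) = a * Ex w h := by
  unfold Ex
  rw [Finset.mul_sum]
  exact Finset.sum_congr rfl fun σ _ => by ring

private lemma Ex_zero {ι : Type} [Fintype ι] [DecidableEq ι] {κ : ι → Type} [∀ i, Fintype (κ i)]
    (w : ∀ i, κ i → ℝ) : Ex w (fun _ => 0) = 0 := by
  unfold Ex
  simp

section

variable {n : ℕ} {s : Fin n → Fin n → ℤ} {X : Fin n → Fin n → Fin n → ℝ} {L θ : ℝ}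

private lemma fl_eq (hX : SFill s X L θ) (a b : Fin n) : fl X a b = 3 * ∑ c, X a b c := by
  unfold fl
  rw [Finset.mul_sum]
  refine Finset.sum_congr rfl fun c _ => ?_
  rw [← hX.cy a b c, hX.cy c a b]
  ring

private lemma X_zero (hX : SFill s X L θ) {a b c : Fin n} (h : ¬ (a ≠ b ∧ b ≠ c ∧ c ≠ a)) :
    X a b c = 0 := by
  by_contra h0
  exact h (hX.sp a b c h0)

private lemma fl_ge (hX : SFill s X L θ) (hn : 3 ≤ n) (hθ : 0 < θ) {a b : Fin n} (hab : a ≠ b) :
    θ ≤ fl X a b := by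
  have hn0 : (0 : ℝ) < n := by exact_mod_cast (by omega : 0 < n)
  have hn3 : (3 : ℝ) ≤ n := by exact_mod_cast hn
  have hcard : ((univ \ ({a, b} : Finset (Fin n))).card : ℝ) = n - 2 := by
    rw [Finset.card_sdiff_of_subset (Finset.subset_univ _), Finset.card_univ, Fintype.card_fin,
      Finset.card_pair hab, Nat.cast_sub (by omega)]
    norm_num
  have h1 : ((n : ℝ) - 2) * (θ / n) ≤ ∑ c, X a b c := by
    calc ((n : ℝ) - 2) * (θ / n) = ∑ _c ∈ univ \ ({a, b} : Finset (Fin n)), θ / n := by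
          rw [Finset.sum_const, nsmul_eq_mul, hcard]
      _ ≤ ∑ c ∈ univ \ ({a, b} : Finset (Fin n)), X a b c := by
          refine Finset.sum_le_sum fun c hc => ?_
          simp only [Finset.mem_sdiff, Finset.mem_univ, true_and, Finset.mem_insert,
            Finset.mem_singleton, not_or] at hc
          exact hX.lb a b c hab (Ne.symm hc.2) hc.1
      _ ≤ ∑ c, X a b c :=
          Finset.sum_le_sum_of_subset_of_nonneg (Finset.subset_univ _) fun c _ _ => hX.nn a b c
  rw [fl_eq hX]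
  have h2 : θ ≤ 3 * (((n : ℝ) - 2) * (θ / n)) := by
    have h3 : 3 * (((n : ℝ) - 2) * (θ / n)) - θ = θ * (2 * n - 6) / n := by
      field_simp
      ring
    have h4 : 0 ≤ θ * (2 * n - 6) / n := by
      apply div_nonneg (mul_nonneg hθ.le (by linarith)) hn0.le
    linarith
  linarith

private lemma wt_cy (hX : SFill s X L θ) (a b c : Fin n) : wt X a b c = wt X b c a := by
  unfold wt
  rw [hX.cy a b c]
  congr 1
  ring

private lemma wt_zero (hX : SFill s X L θ) {a b c : Fin n} (h : ¬ (a ≠ b ∧ b ≠ c ∧ c ≠ a)) :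
    wt X a b c = 0 := by
  unfold wt
  rw [X_zero hX h]
  simp

private lemma wt_abs (hX : SFill s X L θ) (hn : 3 ≤ n) (hL : 0 < L) (hθ : 0 < θ)
    (a b c : Fin n) : |wt X a b c| ≤ (27 * L / θ ^ 3) / n := by
  have hn0 : (0 : ℝ) < n := by exact_mod_cast (by omega : 0 < n)
  by_cases h : a ≠ b ∧ b ≠ c ∧ c ≠ a
  · obtain ⟨h1, h2, h3⟩ := h
    have f1 := fl_ge hX hn hθ h1
    have f2 := fl_ge hX hn hθ h2
    have f3 := fl_ge hX hn hθ h3
    have hp : θ ^ 3 ≤ fl X a b * fl X b c * fl X c a := by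
      have g1 : θ * θ ≤ fl X a b * fl X b c := mul_le_mul f1 f2 hθ.le (hθ.le.trans f1)
      have g2 : θ * θ * θ ≤ fl X a b * fl X b c * fl X c a :=
        mul_le_mul g1 f3 hθ.le ((mul_pos hθ hθ).le.trans g1)
      calc θ ^ 3 = θ * θ * θ := by ring
        _ ≤ _ := g2
    have hp0 : 0 < θ ^ 3 := by positivity
    unfold wt
    rw [abs_of_nonneg (div_nonneg (mul_nonneg (by norm_num) (hX.nn a b c)) (hp0.le.trans hp))]
    calc 27 * X a b c / (fl X a b * fl X b c * fl X c a)
        ≤ 27 * (L / n) / θ ^ 3 := by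
          apply div_le_div₀ (by positivity) _ hp0 hp
          exact mul_le_mul_of_nonneg_left (hX.ub a b c) (by norm_num)
      _ = (27 * L / θ ^ 3) / n := by ring
  · rw [wt_zero hX h, abs_zero]
    positivity

/-- the weighted degree of a pair -/
private noncomputable def FF (s : Fin n → Fin n → ℤ) (X : Fin n → Fin n → Fin n → ℝ) (k : Fin 3)
    (e : ℝ) (x y : Fin n) (σ : Fin n × Fin n → Sta) : ℝ :=
  ∑ c, (e * wt X x y c) * (ms s σ (k + 1) y c * ms s σ (k + 2) c x)

private lemma FF_self (hX : SFill s X L θ) (k : Fin 3) (e : ℝ) (x : Fin n)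
    (σ : Fin n × Fin n → Sta) : FF s X k e x x σ = 0 := by
  unfold FF
  refine Finset.sum_eq_zero fun c _ => ?_
  rw [wt_zero hX (fun h => h.1 rfl)]
  ring

private lemma FF_neg (k : Fin 3) (x y : Fin n) (σ : Fin n × Fin n → Sta) :
    FF s X k (-1) x y σ = -FF s X k 1 x y σ := by
  unfold FF
  rw [← Finset.sum_neg_distrib]
  exact Finset.sum_congr rfl fun c _ => by ring

private lemma mean_FF (hX : SFill s X L θ) (hn : 3 ≤ n) (hθ : 0 < θ)
    (w : Fin n × Fin n → Sta → ℝ)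
    (m4 : ∀ (a b c : Fin n) (τ τ' : Fin 3), a ≠ b → b ≠ c → c ≠ a →
      Ex w (fun σ => ms s σ τ b c * ms s σ τ' c a) = fl X b c / 3 * (fl X c a / 3))
    (k : Fin 3) (e : ℝ) {x y : Fin n} (hxy : x ≠ y) :
    Ex w (FF s X k e x y) = e := by
  have h0 : Ex w (FF s X k e x y) =
      ∑ c, (e * wt X x y c) * Ex w (fun σ => ms s σ (k + 1) y c * ms s σ (k + 2) c x) := by
    have e1 := Ex_sum w (Finset.univ : Finset (Fin n))
      (fun c σ => (e * wt X x y c) * (ms s σ (k + 1) y c * ms s σ (k + 2) c x))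
    refine e1.trans (Finset.sum_congr rfl fun c _ => ?_)
    exact Ex_mul w _ _
  rw [h0]
  have f1 := fl_ge hX hn hθ hxy
  have f1' : fl X x y ≠ 0 := (hθ.trans_le f1).ne'
  have h1 : ∀ c ∈ (Finset.univ : Finset (Fin n)), (e * wt X x y c) *
      Ex w (fun σ => ms s σ (k + 1) y c * ms s σ (k + 2) c x) = e * (3 * X x y c / fl X x y) := by
    intro c _
    by_cases h : y ≠ c ∧ c ≠ x
    · rw [m4 x y c (k + 1) (k + 2) hxy h.1 h.2]
      have f2 := fl_ge hX hn hθ h.1
      have f3 := fl_ge hX hn hθ h.2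
      have f2' : fl X y c ≠ 0 := (hθ.trans_le f2).ne'
      have f3' : fl X c x ≠ 0 := (hθ.trans_le f3).ne'
      unfold wt
      field_simp
      ring
    · have hc : ¬ (x ≠ y ∧ y ≠ c ∧ c ≠ x) := fun h' => h h'.2
      rw [wt_zero hX hc, X_zero hX hc]
      ring
  rw [Finset.sum_congr rfl h1, ← Finset.mul_sum, ← Finset.sum_div, ← Finset.mul_sum,
    ← fl_eq hX, div_self f1', mul_one]

private lemma ms_self (σ : Fin n × Fin n → Sta) (τ : Fin 3) (a : Fin n) : ms s σ τ a a = 0 := by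
  unfold ms
  rw [if_pos rfl]

private lemma ms_val (σ : Fin n × Fin n → Sta) (τ : Fin 3) (a b : Fin n) :
    ms s σ τ a b = 0 ∨ ms s σ τ a b = 1 := by
  unfold ms iv
  split_ifs <;> simp

private lemma iv_net (z : ℤ) (hz : z = -1 ∨ z = 0 ∨ z = 1) (u : Sta) :
    (iv z u 0 + iv z u 1 + iv z u 2) - (iv (-z) u 0 + iv (-z) u 1 + iv (-z) u 2) = z := by
  obtain ⟨i, f⟩ := u
  rcases hz with rfl | rfl | rfl
  · unfold iv
    fin_cases i <;> cases h0 : f 0 <;> cases h1 : f 1 <;> cases h2 : f 2 <;>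
      simp [h0, h1, h2] <;> norm_num
  · simp
  · unfold iv
    fin_cases i <;> cases h0 : f 0 <;> cases h1 : f 1 <;> cases h2 : f 2 <;>
      simp [h0, h1, h2] <;> norm_num

private lemma co_comm {u v : Fin n} (h : u ≠ v) : co u v = co v u := by
  unfold co
  rcases lt_or_gt_of_ne h with h1 | h1
  · rw [if_pos h1, if_neg (not_lt.2 h1.le)]
  · rw [if_neg (not_lt.2 h1.le), if_pos h1]

private lemma ms_net (hs : Circ s) (σ : Fin n × Fin n → Sta) {u v : Fin n} (h : u ≠ v) :
    (ms s σ 0 u v + ms s σ 1 u v + ms s σ 2 u v) -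
      (ms s σ 0 v u + ms s σ 1 v u + ms s σ 2 v u) = (s u v : ℝ) := by
  unfold ms
  simp only [if_neg h, if_neg (Ne.symm h)]
  have e1 : s v u = -s u v := hs.sk v u
  rw [e1, co_comm (Ne.symm h)]
  exact iv_net (s u v) (hs.v1 u v) (σ (co u v))

end

theorem hRT : StRT := by
  intro hBRN hUB hMAR hCON hCO2 L θ η hL hθ _ hη hη1
  have hG : 0 < 27 * L / θ ^ 3 := by positivity
  obtain ⟨n1, h1⟩ := hCON hBRN (27 * L / θ ^ 3) η hG hη
  obtain ⟨n2, h2⟩ := hCO2 hBRN η hη hη1
  refine ⟨max 3 (max n1 n2), fun n hn s X hs hX => ?_⟩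
  have hn3 : 3 ≤ n := le_trans (le_max_left _ _) hn
  have hn1 : n1 ≤ n := le_trans ((le_max_left _ _).trans (le_max_right _ _)) hn
  have hn2 : n2 ≤ n := le_trans ((le_max_right _ _).trans (le_max_right _ _)) hn
  have hn0 : (0 : ℝ) < n := by exact_mod_cast (by omega : 0 < n)
  obtain ⟨m1, m2, m3, m4⟩ := hMAR n s X L θ hθ hs hX
  set w : Fin n × Fin n → Sta → ℝ := fun p => pr (yy s X p) with hw
  -- the events
  let J : Type := Option (Fin 3 × Bool × Fin n × Fin n)
  let sg : Bool → ℝ := fun e => if e then 1 else -1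
  let f : J → (Fin n × Fin n → Sta) → ℝ := fun j σ => match j with
    | none => ∑ a, ∑ b, ms s σ 0 a b
    | some (k, e, x, y) => FF s X k (sg e) x y σ
  let t : J → ℝ := fun j => match j with
    | none => η * (n : ℝ) ^ 2
    | some _ => η
  let r : J → ℝ := fun j => match j with
    | none => 1 / 4
    | some _ => 1 / (20 * (n : ℝ) ^ 2)
  have hsg : ∀ e, |sg e| = 1 := by
    intro e
    cases e <;> simp [sg]
  have hprob : ∀ j : J, Ex w (fun σ => if Ex w (f j) + t j ≤ f j σ then 1 else 0) ≤ r j := by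
    rintro (_ | ⟨k, e, x, y⟩)
    · exact h2 n hn2 s w 0 m1 m2
    · by_cases hxy : x = y
      · subst hxy
        have e0 : f (some (k, e, x, x)) = fun _ => 0 := by
          funext σ
          exact FF_self hX k (sg e) x σ
        have e1 : (fun σ => if Ex w (f (some (k, e, x, x))) + t (some (k, e, x, x)) ≤
            f (some (k, e, x, x)) σ then (1 : ℝ) else 0) = fun _ => 0 := by
          funext σ
          rw [e0, Ex_zero, if_neg]
          change ¬ (0 + η ≤ 0)
          linarith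
        rw [e1, Ex_zero]
        change 0 ≤ 1 / (20 * (n : ℝ) ^ 2)
        positivity
      · refine h1 n hn1 s w x y (fun c => sg e * wt X x y c) (k + 1) (k + 2) m1 m2 hxy ?_ ?_ ?_
        · intro c
          rw [abs_mul, hsg, one_mul]
          exact wt_abs hX hn3 hL hθ x y c
        · change sg e * wt X x y x = 0
          rw [wt_zero hX (fun h => h.2.2 rfl), mul_zero]
        · change sg e * wt X x y y = 0
          rw [wt_zero hX (fun h => h.2.1 rfl), mul_zero]
  have hr : ∑ j, r j < 1 := by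
    have e1 : ∑ j, r j = 1 / 4 + ∑ _j : Fin 3 × Bool × Fin n × Fin n, 1 / (20 * (n : ℝ) ^ 2) :=
      Fintype.sum_option r
    rw [e1, Finset.sum_const, Finset.card_univ, Fintype.card_prod, Fintype.card_prod,
      Fintype.card_prod, Fintype.card_fin, Fintype.card_fin, Fintype.card_bool, nsmul_eq_mul]
    push_cast
    have e2 : (3 * (2 * ((n : ℝ) * n))) * (1 / (20 * (n : ℝ) ^ 2)) = 3 / 10 := by
      field_simp
      ring
    rw [e2]
    norm_num
  obtain ⟨σ, hσ⟩ := hUB (Fin n × Fin n) Sta w J f t r m1 m2 hprob hr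
  -- the means
  have hmean : Ex w (f none) = ∑ a, ∑ b, ∑ c, X a b c := by
    have e1 : Ex w (f none) = ∑ a, ∑ b, Ex w (fun σ => ms s σ 0 a b) := by
      have e2 := Ex_sum w (Finset.univ : Finset (Fin n)) (fun a σ => ∑ b, ms s σ 0 a b)
      refine e2.trans (Finset.sum_congr rfl fun a _ => ?_)
      exact Ex_sum w (Finset.univ : Finset (Fin n)) (fun b σ => ms s σ 0 a b)
    rw [e1]
    refine Finset.sum_congr rfl fun a _ => Finset.sum_congr rfl fun b _ => ?_
    by_cases hab : a = b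
    · subst hab
      have e3 : (fun σ : Fin n × Fin n → Sta => ms s σ 0 a a) = fun _ => 0 := by
        funext σ
        exact ms_self σ 0 a
      rw [e3, Ex_zero]
      symm
      exact Finset.sum_eq_zero fun c _ => X_zero hX (fun h => h.1 rfl)
    · have e3 := m3 a b 0 hab
      rw [e3, fl_eq hX]
      ring
  have hdev : ∀ (k : Fin 3) (x y : Fin n), x ≠ y → |FF s X k 1 x y σ - 1| ≤ η := by
    intro k x y hxy
    have a1 : FF s X k 1 x y σ < Ex w (FF s X k 1 x y) + η := hσ (some (k, true, x, y))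
    have a2 : FF s X k (-1) x y σ < Ex w (FF s X k (-1) x y) + η := hσ (some (k, false, x, y))
    rw [mean_FF hX hn3 hθ w m4 k 1 hxy] at a1
    rw [mean_FF hX hn3 hθ w m4 k (-1) hxy, FF_neg] at a2
    rw [abs_le]
    constructor <;> linarith
  classical
  -- the edge sets
  let T : Fin 3 → Finset (Fin n × Fin n) := fun τ =>
    Finset.univ.filter fun p => ms s σ τ p.1 p.2 = 1
  have hT : ∀ (τ : Fin 3) (a b : Fin n), (a, b) ∈ T τ ↔ ms s σ τ a b = 1 := by
    intro τ a b
    simp [T]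
  have hTv : ∀ (τ : Fin 3) (a b : Fin n), ms s σ τ a b = if (a, b) ∈ T τ then 1 else 0 := by
    intro τ a b
    by_cases h : (a, b) ∈ T τ
    · rw [if_pos h]; exact (hT τ a b).1 h
    · rw [if_neg h]
      exact (ms_val σ τ a b).resolve_right fun h' => h ((hT τ a b).2 h')
  have hd : ∀ (τ : Fin 3) (u : Fin n), (u, u) ∉ T τ := by
    intro τ u h
    have h3 := (hT τ u u).1 h
    rw [ms_self] at h3
    exact zero_ne_one h3
  refine ⟨T 0, T 1, T 2, hd 0, hd 1, hd 2, ?_, ?_, ?_, ?_, ?_⟩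
  · intro u v huv
    have h3 := ms_net hs σ huv
    rw [hTv 0 u v, hTv 1 u v, hTv 2 u v, hTv 0 v u, hTv 1 v u, hTv 2 v u] at h3
    have h4 : ((((if (u, v) ∈ T 0 then 1 else 0) + (if (u, v) ∈ T 1 then 1 else 0) +
        (if (u, v) ∈ T 2 then 1 else 0) : ℤ) - ((if (v, u) ∈ T 0 then 1 else 0) +
        (if (v, u) ∈ T 1 then 1 else 0) + (if (v, u) ∈ T 2 then 1 else 0)) : ℤ) : ℝ) =
        ((s u v : ℤ) : ℝ) := by
      push_cast
      exact h3
    exact_mod_cast h4
  · have h3 : (∑ a, ∑ b, ms s σ 0 a b) < Ex w (f none) + η * (n : ℝ) ^ 2 := hσ none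
    rw [hmean] at h3
    have h4 : ((T 0).card : ℝ) = ∑ a, ∑ b, ms s σ 0 a b := by
      rw [← Finset.sum_product', Finset.univ_product_univ]
      have h5 : ∀ p ∈ (Finset.univ : Finset (Fin n × Fin n)), ms s σ 0 p.1 p.2 =
          if ms s σ 0 p.1 p.2 = 1 then 1 else 0 := by
        intro p _
        by_cases h : ms s σ 0 p.1 p.2 = 1
        · rw [if_pos h, h]
        · rw [if_neg h]
          exact (ms_val σ 0 p.1 p.2).resolve_right h
      rw [Finset.sum_congr rfl h5, Finset.sum_boole]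
    rw [h4]
    exact h3.le
  · intro a b hab
    have h3 := hdev 0 a b hab
    have e1 : ∑ c, (if (b, c) ∈ T 1 ∧ (c, a) ∈ T 2 then wt X a b c else 0) =
        FF s X 0 1 a b σ := by
      unfold FF
      refine Finset.sum_congr rfl fun c _ => ?_
      have k1 : (0 : Fin 3) + 1 = 1 := rfl
      have k2 : (0 : Fin 3) + 2 = 2 := rfl
      rw [k1, k2, hTv 1 b c, hTv 2 c a]
      by_cases g1 : (b, c) ∈ T 1 <;> by_cases g2 : (c, a) ∈ T 2 <;> simp [g1, g2]
    rw [e1]
    exact h3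
  · intro b c hbc
    have h3 := hdev 1 b c hbc
    have e1 : ∑ a, (if (a, b) ∈ T 0 ∧ (c, a) ∈ T 2 then wt X a b c else 0) =
        FF s X 1 1 b c σ := by
      unfold FF
      refine Finset.sum_congr rfl fun a _ => ?_
      have k1 : (1 : Fin 3) + 1 = 2 := rfl
      have k2 : (1 : Fin 3) + 2 = 0 := rfl
      rw [k1, k2, hTv 2 c a, hTv 0 a b, wt_cy hX a b c]
      by_cases g1 : (a, b) ∈ T 0 <;> by_cases g2 : (c, a) ∈ T 2 <;> simp [g1, g2]
    rw [e1]
    exact h3
  · intro c a hca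
    have h3 := hdev 2 c a hca
    have e1 : ∑ b, (if (a, b) ∈ T 0 ∧ (b, c) ∈ T 1 then wt X a b c else 0) =
        FF s X 2 1 c a σ := by
      unfold FF
      refine Finset.sum_congr rfl fun b _ => ?_
      have k1 : (2 : Fin 3) + 1 = 0 := rfl
      have k2 : (2 : Fin 3) + 2 = 1 := rfl
      rw [k1, k2, hTv 0 a b, hTv 1 b c, ← wt_cy hX c a b]
      by_cases g1 : (a, b) ∈ T 0 <;> by_cases g2 : (b, c) ∈ T 1 <;> simp [g1, g2]
    rw [e1]
    exact h3

end Pool.Agent.Helper69.SY
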